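import Pool.Agent.Lib.MP_aa3aaf_al_h46.SmFrame

/-!
A `G₂`-structure in a chart is pointwise standard and smooth; local smooth frames.
-/

set_option autoImplicit false
set_option linter.unusedSectionVars false
open scoped BigOperators Matrix ContDiff Manifold
noncomputable section
namespace Pool.Agent.AA3.LF

section
variable {V : Type*} [AddCommGroup V] [Module ℝ V] (φ : V [⋀^Fin 3]→ₗ[ℝ] ℝ)

/-- `x ↦ φ(x, y, z)` -/
def lin0 (y z : V) : V →ₗ[ℝ] ℝ where
  toFun x := φ ![x, y, z]
  map_add' x x' := by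
    have h := φ.map_update_add ![x, y, z] 0 x x'
    have e : ∀ t, Function.update ![x, y, z] 0 t = ![t, y, z] := by
      intro t; funext i; fin_cases i <;> simp
    rwa [e, e, e] at h
  map_smul' c x := by
    have h := φ.map_update_smul ![x, y, z] 0 c x
    have e : ∀ t, Function.update ![x, y, z] 0 t = ![t, y, z] := by
      intro t; funext i; fin_cases i <;> simp
    rwa [e, e] at h

/-- `y ↦ φ(x, y, z)` -/
def lin1 (x z : V) : V →ₗ[ℝ] ℝ where
  toFun y := φ ![x, y, z]
  map_add' y y' := by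
    have h := φ.map_update_add ![x, y, z] 1 y y'
    have e : ∀ t, Function.update ![x, y, z] 1 t = ![x, t, z] := by
      intro t; funext i; fin_cases i <;> simp
    simpa [e] using h
  map_smul' c y := by
    have h := φ.map_update_smul ![x, y, z] 1 c y
    have e : ∀ t, Function.update ![x, y, z] 1 t = ![x, t, z] := by
      intro t; funext i; fin_cases i <;> simp
    simpa [e] using h

/-- `z ↦ φ(x, y, z)` -/
def lin2 (x y : V) : V →ₗ[ℝ] ℝ where
  toFun z := φ ![x, y, z]
  map_add' z z' := by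
    have h := φ.map_update_add ![x, y, z] 2 z z'
    have e : ∀ t, Function.update ![x, y, z] 2 t = ![x, y, t] := by
      intro t; funext i; fin_cases i <;> simp
    simpa [e] using h
  map_smul' c z := by
    have h := φ.map_update_smul ![x, y, z] 2 c z
    have e : ∀ t, Function.update ![x, y, z] 2 t = ![x, y, t] := by
      intro t; funext i; fin_cases i <;> simp
    simpa [e] using h

lemma alt3_sum (q r s : Fin 7 → ℝ) (b : Fin 7 → V) :
    φ ![∑ a, q a • b a, ∑ a, r a • b a, ∑ a, s a • b a]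
      = ∑ a, ∑ a', ∑ a'', φ ![b a, b a', b a''] * q a * r a' * s a'' := by
  have h0 : ∀ y z, φ ![∑ a, q a • b a, y, z] = ∑ a, q a * φ ![b a, y, z] := by
    intro y z
    have := map_sum (lin0 φ y z) (fun a => q a • b a) Finset.univ
    simp only [map_smul, smul_eq_mul] at this
    exact this
  have h1 : ∀ x z, φ ![x, ∑ a, r a • b a, z] = ∑ a, r a * φ ![x, b a, z] := by
    intro x z
    have := map_sum (lin1 φ x z) (fun a => r a • b a) Finset.univ
    simp only [map_smul, smul_eq_mul] at this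
    exact this
  have h2 : ∀ x y, φ ![x, y, ∑ a, s a • b a] = ∑ a, s a * φ ![x, y, b a] := by
    intro x y
    have := map_sum (lin2 φ x y) (fun a => s a • b a) Finset.univ
    simp only [map_smul, smul_eq_mul] at this
    exact this
  rw [h0]
  refine Finset.sum_congr rfl fun a _ => ?_
  rw [h1, Finset.mul_sum]
  refine Finset.sum_congr rfl fun a' _ => ?_
  rw [h2, Finset.mul_sum, Finset.mul_sum]
  refine Finset.sum_congr rfl fun a'' _ => ?_
  ring

end

section
variable {M : Type} [TopologicalSpace M] [ChartedSpace (Eu 7) M] [IsManifold 𝓘(ℝ, Eu 7) ∞ M]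

/-- the coordinate basis of the tangent space -/
theorem exists_coord_basis {e : OpenPartialHomeomorph M (Eu 7)} (he : e ∈ atlas (Eu 7) M)
    {z : Eu 7} (hz : z ∈ e.target) :
    ∃ c : Module.Basis (Fin 7) ℝ (TangentSpace 𝓘(ℝ, Eu 7) (e.symm z)),
      ∀ i, c i = cvec e i z := by
  have : IsManifold 𝓘(ℝ, Eu 7) 1 M := IsManifold.of_le (n := ∞) (by norm_cast)
  have hs : z ∈ e.symm.source := hz
  let L := (mdifferentiable_of_mem_atlas (I := 𝓘(ℝ, Eu 7)) he).symm.mfderiv hs
  let b0 : Module.Basis (Fin 7) ℝ (Eu 7) := (EuclideanSpace.basisFun (Fin 7) ℝ).toBasis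
  refine ⟨b0.map L.toLinearEquiv, fun i => ?_⟩
  have h1 : b0 i = eb i := by
    show (EuclideanSpace.basisFun (Fin 7) ℝ).toBasis i = EuclideanSpace.single i 1
    simp
  show L (b0 i) = _
  rw [h1]
  rfl

/-- the metric in the chart as a real matrix -/
def Gr (S : G2Structure M) (e : OpenPartialHomeomorph M (Eu 7)) (z : Eu 7) :
    Matrix (Fin 7) (Fin 7) ℝ := fun i j => S.g (e.symm z) (cvec e i z) (cvec e j z)

/-- the 3-form in the chart -/
def pr (S : G2Structure M) (e : OpenPartialHomeomorph M (Eu 7)) (z : Eu 7)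
    (i j k : Fin 7) : ℝ := S.φ (e.symm z) ![cvec e i z, cvec e j z, cvec e k z]

theorem exists_adap (S : G2Structure M) {e : OpenPartialHomeomorph M (Eu 7)}
    (he : e ∈ atlas (Eu 7) M) {z : Eu 7} (hz : z ∈ e.target) :
    ∃ Q, Adap (Gr S e z) (pr S e z) Q := by
  obtain ⟨c, hc⟩ := exists_coord_basis he hz
  obtain ⟨b, hb1, hb2⟩ := S.adapted (e.symm z)
  have hcb : ∀ i, cvec e i z = ∑ a, b.toMatrix c a i • b a := by
    intro i
    rw [← hc i]
    exact (b.sum_toMatrix_smul_self c i).symm
  refine ⟨b.toMatrix c, ?_, ?_, ?_⟩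
  · rw [← Module.Basis.det_apply]
    exact b.isUnit_det c
  · ext i j
    show S.g (e.symm z) (cvec e i z) (cvec e j z) = _
    rw [hcb i, hcb j, Matrix.mul_apply]
    simp only [map_sum, map_smul, LinearMap.sum_apply, LinearMap.smul_apply, hb1, smul_eq_mul,
      Matrix.transpose_apply, mul_ite, mul_one, mul_zero, Finset.sum_ite_eq', Finset.mem_univ,
      if_true]
    exact Finset.sum_congr rfl fun a _ => mul_comm _ _
  · intro i j k
    show S.φ (e.symm z) ![cvec e i z, cvec e j z, cvec e k z] = _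
    rw [hcb i, hcb j, hcb k, alt3_sum]
    simp only [hb2]

theorem Gr_smooth (S : G2Structure M) {e : OpenPartialHomeomorph M (Eu 7)}
    (he : e ∈ atlas (Eu 7) M) (i j : Fin 7) :
    ContDiffOn ℝ ∞ (fun z => Gr S e z i j) e.target := by
  have h : ContDiffOn ℝ ∞ (ext0 (tgt e : Set (Eu 7)) (gco S.toMetricForm e i j)) (tgt e) :=
    S.smooth_g e he i j
  have h1 := Complex.reCLM.contDiff.comp_contDiffOn (n := ∞) h
  refine h1.congr fun z hz => ?_
  show _ = Complex.re (ext0 (tgt e : Set (Eu 7)) (gco S.toMetricForm e i j) z)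
  rw [show ext0 (tgt e : Set (Eu 7)) (gco S.toMetricForm e i j) z
    = gco S.toMetricForm e i j ⟨z, hz⟩ from ext0_apply _ _ ⟨z, hz⟩]
  rfl

theorem pr_smooth (S : G2Structure M) {e : OpenPartialHomeomorph M (Eu 7)}
    (he : e ∈ atlas (Eu 7) M) (i j k : Fin 7) :
    ContDiffOn ℝ ∞ (fun z => pr S e z i j k) e.target := by
  have h : ContDiffOn ℝ ∞ (ext0 (tgt e : Set (Eu 7)) (pco S.toMetricForm e i j k)) (tgt e) :=
    S.smooth_φ e he i j k
  have h1 := Complex.reCLM.contDiff.comp_contDiffOn (n := ∞) h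
  refine h1.congr fun z hz => ?_
  show _ = Complex.re (ext0 (tgt e : Set (Eu 7)) (pco S.toMetricForm e i j k) z)
  rw [show ext0 (tgt e : Set (Eu 7)) (pco S.toMetricForm e i j k) z
    = pco S.toMetricForm e i j k ⟨z, hz⟩ from ext0_apply _ _ ⟨z, hz⟩]
  rfl

end

end Pool.Agent.AA3.LF
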