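import Pool.Agent.Lib.MP_aa3aaf_al.Stmt

/-!
The cross product of `ℝ⁷` defined by the standard `G₂`-form and adapted frames from three vectors.
-/

set_option autoImplicit false
open scoped BigOperators Matrix
noncomputable section
namespace Pool.Agent.AA3.LF

/-- the cross product of `ℝ⁷` -/
def X0 (u v : Fin 7 → ℝ) : Fin 7 → ℝ :=
  ![u 1 * v 2 - u 2 * v 1 + (u 3 * v 4 - u 4 * v 3) + (u 5 * v 6 - u 6 * v 5),
    u 2 * v 0 - u 0 * v 2 + (u 3 * v 5 - u 5 * v 3) - (u 4 * v 6 - u 6 * v 4),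
    u 0 * v 1 - u 1 * v 0 - (u 3 * v 6 - u 6 * v 3) - (u 4 * v 5 - u 5 * v 4),
    u 4 * v 0 - u 0 * v 4 + (u 5 * v 1 - u 1 * v 5) - (u 6 * v 2 - u 2 * v 6),
    u 0 * v 3 - u 3 * v 0 - (u 6 * v 1 - u 1 * v 6) - (u 5 * v 2 - u 2 * v 5),
    u 6 * v 0 - u 0 * v 6 + (u 1 * v 3 - u 3 * v 1) - (u 2 * v 4 - u 4 * v 2),
    u 0 * v 5 - u 5 * v 0 - (u 1 * v 4 - u 4 * v 1) - (u 2 * v 3 - u 3 * v 2)]

lemma X0_apply (u v : Fin 7 → ℝ) (k : Fin 7) :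
    X0 u v k = ∑ i, ∑ j, (phi0 i j k : ℝ) * u i * v j := by
  fin_cases k <;> simp only [Fin.sum_univ_seven] <;> simp [X0, phi0, sgn3] <;> ring

lemma X0_antisymm (u v : Fin 7 → ℝ) : X0 u v = -X0 v u := by
  funext k
  fin_cases k <;> simp [X0] <;> ring

lemma X0_neg_left (u v : Fin 7 → ℝ) : X0 (-u) v = -X0 u v := by
  funext k
  fin_cases k <;> simp [X0] <;> ring

lemma X0_neg_right (u v : Fin 7 → ℝ) : X0 u (-v) = -X0 u v := by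
  funext k
  fin_cases k <;> simp [X0] <;> ring

lemma X0_smul_left (c : ℝ) (u v : Fin 7 → ℝ) : X0 (c • u) v = c • X0 u v := by
  funext k
  fin_cases k <;> simp [X0] <;> ring

lemma X0_smul_right (c : ℝ) (u v : Fin 7 → ℝ) : X0 u (c • v) = c • X0 u v := by
  funext k
  fin_cases k <;> simp [X0] <;> ring

lemma X0_self (u : Fin 7 → ℝ) : X0 u u = 0 := by
  funext k
  fin_cases k <;> simp [X0] <;> ring

lemma X0_dot_swap (u v w : Fin 7 → ℝ) : X0 u v ⬝ᵥ w = -(X0 u w ⬝ᵥ v) := by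
  simp [X0, dotProduct, Fin.sum_univ_succ]
  ring

lemma X0_polar (u v w : Fin 7 → ℝ) :
    X0 u (X0 v w) + X0 v (X0 u w) = (-2 * (u ⬝ᵥ v)) • w + (u ⬝ᵥ w) • v + (v ⬝ᵥ w) • u := by
  funext k
  fin_cases k <;> simp [X0, dotProduct, Fin.sum_univ_succ] <;> ring


lemma X0_sq {a b : Fin 7 → ℝ} (ha : a ⬝ᵥ a = 1) (hab : a ⬝ᵥ b = 0) : X0 a (X0 a b) = -b := by
  have h := X0_polar a a b
  rw [ha, hab] at h
  have h2 : (2 : ℝ) • X0 a (X0 a b) = (2 : ℝ) • (-b) := by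
    rw [two_smul, h]; simp
  exact smul_right_injective _ (two_ne_zero) h2

lemma X0_sq' {a b : Fin 7 → ℝ} (ha : a ⬝ᵥ a = 1) (hab : a ⬝ᵥ b = 0) : X0 a (X0 b a) = b := by
  rw [X0_antisymm b a, X0_neg_right, X0_sq ha hab, neg_neg]

lemma X0_assoc {a b c : Fin 7 → ℝ} (hab : a ⬝ᵥ b = 0) (hac : a ⬝ᵥ c = 0) (hbc : b ⬝ᵥ c = 0) :
    X0 a (X0 b c) = -X0 b (X0 a c) := by
  have h := X0_polar a b c
  rw [hab, hac, hbc] at h
  simp only [mul_zero, zero_smul, add_zero] at h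
  exact eq_neg_of_add_eq_zero_left h

lemma X0_dot_left (a b : Fin 7 → ℝ) : X0 a b ⬝ᵥ a = 0 := by
  rw [X0_dot_swap, X0_self]; simp

lemma X0_dot_right (a b : Fin 7 → ℝ) : X0 a b ⬝ᵥ b = 0 := by
  have := X0_dot_swap a b b
  linarith

lemma X0_dot_X0 (a b c : Fin 7 → ℝ) :
    X0 a b ⬝ᵥ X0 a c = (a ⬝ᵥ a) * (b ⬝ᵥ c) - (a ⬝ᵥ b) * (a ⬝ᵥ c) := by
  have h := X0_polar a a c
  have h2 : (2 : ℝ) • X0 a (X0 a c) = (2 : ℝ) • (-(a ⬝ᵥ a) • c + (a ⬝ᵥ c) • a) := by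
    rw [two_smul, h]; module
  have h3 := smul_right_injective _ (two_ne_zero (α := ℝ)) h2
  have h4 := X0_dot_swap a b (X0 a c)
  rw [h4, h3, add_dotProduct, smul_dotProduct, smul_dotProduct, dotProduct_comm c b]
  simp only [smul_eq_mul]
  ring

lemma X0_dot_cyc (a b c : Fin 7 → ℝ) : X0 a b ⬝ᵥ c = X0 b c ⬝ᵥ a := by
  rw [X0_antisymm a b, neg_dotProduct, X0_dot_swap b a c, neg_neg]

/-- the frame generated by three vectors -/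
def frm (u v w : Fin 7 → ℝ) : Fin 7 → (Fin 7 → ℝ) :=
  ![u, v, X0 u v, w, X0 u w, X0 v w, -X0 (X0 u v) w]

theorem table_aux {e1 e2 e3 e4 e5 e6 e7 : Fin 7 → ℝ} (he3 : e3 = X0 e1 e2) (he5 : e5 = X0 e1 e4)
    (he6 : e6 = X0 e2 e4) (he7 : e7 = -X0 e3 e4) (o11 : e1 ⬝ᵥ e1 = 1) (o22 : e2 ⬝ᵥ e2 = 1)
    (o44 : e4 ⬝ᵥ e4 = 1) (o12 : e1 ⬝ᵥ e2 = 0) (o14 : e1 ⬝ᵥ e4 = 0) (o24 : e2 ⬝ᵥ e4 = 0)
    (o34 : e3 ⬝ᵥ e4 = 0) :
    (∀ a b, (![e1, e2, e3, e4, e5, e6, e7] : Fin 7 → (Fin 7 → ℝ)) a ⬝ᵥ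
        (![e1, e2, e3, e4, e5, e6, e7] : Fin 7 → (Fin 7 → ℝ)) b = if a = b then 1 else 0) ∧
    ∀ a b, X0 ((![e1, e2, e3, e4, e5, e6, e7] : Fin 7 → (Fin 7 → ℝ)) a)
        ((![e1, e2, e3, e4, e5, e6, e7] : Fin 7 → (Fin 7 → ℝ)) b)
      = ∑ c, (phi0 a b c : ℝ) • (![e1, e2, e3, e4, e5, e6, e7] : Fin 7 → (Fin 7 → ℝ)) c := by
  have o21 : e2 ⬝ᵥ e1 = 0 := by rw [dotProduct_comm]; exact o12
  have o41 : e4 ⬝ᵥ e1 = 0 := by rw [dotProduct_comm]; exact o14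
  have o42 : e4 ⬝ᵥ e2 = 0 := by rw [dotProduct_comm]; exact o24
  have o43 : e4 ⬝ᵥ e3 = 0 := by rw [dotProduct_comm]; exact o34
  have o31 : e3 ⬝ᵥ e1 = 0 := by rw [he3]; exact X0_dot_left _ _
  have o32 : e3 ⬝ᵥ e2 = 0 := by rw [he3]; exact X0_dot_right _ _
  have o13 : e1 ⬝ᵥ e3 = 0 := by rw [dotProduct_comm]; exact o31
  have o23 : e2 ⬝ᵥ e3 = 0 := by rw [dotProduct_comm]; exact o32
  have o33 : e3 ⬝ᵥ e3 = 1 := by rw [he3, X0_dot_X0, o11, o22, o12]; ring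
  have m12 : X0 e1 e2 = e3 := he3.symm
  have m13 : X0 e1 e3 = -e2 := by rw [he3]; exact X0_sq o11 o12
  have m23 : X0 e2 e3 = e1 := by rw [he3]; exact X0_sq' o22 o21
  have m14 : X0 e1 e4 = e5 := he5.symm
  have m15 : X0 e1 e5 = -e4 := by rw [he5]; exact X0_sq o11 o14
  have m45 : X0 e4 e5 = e1 := by rw [he5]; exact X0_sq' o44 o41
  have m24 : X0 e2 e4 = e6 := he6.symm
  have m26 : X0 e2 e6 = -e4 := by rw [he6]; exact X0_sq o22 o24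
  have m46 : X0 e4 e6 = e2 := by rw [he6]; exact X0_sq' o44 o42
  have m34 : X0 e3 e4 = -e7 := by rw [he7, neg_neg]
  have m37 : X0 e3 e7 = e4 := by rw [he7, X0_neg_right, X0_sq o33 o34, neg_neg]
  have m47 : X0 e4 e7 = -e3 := by rw [he7, X0_neg_right, X0_sq' o44 o43]
  have o51 : e5 ⬝ᵥ e1 = 0 := by rw [he5]; exact X0_dot_left _ _
  have o54 : e5 ⬝ᵥ e4 = 0 := by rw [he5]; exact X0_dot_right _ _
  have o55 : e5 ⬝ᵥ e5 = 1 := by rw [he5, X0_dot_X0, o11, o44, o14]; ring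
  have o62 : e6 ⬝ᵥ e2 = 0 := by rw [he6]; exact X0_dot_left _ _
  have o64 : e6 ⬝ᵥ e4 = 0 := by rw [he6]; exact X0_dot_right _ _
  have o66 : e6 ⬝ᵥ e6 = 1 := by rw [he6, X0_dot_X0, o22, o44, o24]; ring
  have o73 : e7 ⬝ᵥ e3 = 0 := by rw [he7, neg_dotProduct, X0_dot_left, neg_zero]
  have o74 : e7 ⬝ᵥ e4 = 0 := by rw [he7, neg_dotProduct, X0_dot_right, neg_zero]
  have o77 : e7 ⬝ᵥ e7 = 1 := by
    rw [he7, neg_dotProduct, dotProduct_neg, neg_neg, X0_dot_X0, o33, o44, o34]; ring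
  have o61 : e6 ⬝ᵥ e1 = 0 := by rw [he6, ← X0_dot_cyc, m12]; exact o34
  have o52 : e5 ⬝ᵥ e2 = 0 := by
    rw [he5, ← X0_dot_cyc, X0_antisymm, m12, neg_dotProduct, o34, neg_zero]
  have o53 : e5 ⬝ᵥ e3 = 0 := by
    rw [he5, ← X0_dot_cyc, X0_antisymm, m13, neg_neg]; exact o24
  have o63 : e6 ⬝ᵥ e3 = 0 := by
    rw [he6, ← X0_dot_cyc, X0_antisymm, m23, neg_dotProduct, o14, neg_zero]
  have o65 : e6 ⬝ᵥ e5 = 0 := by
    rw [he5, he6, X0_antisymm e2 e4, X0_antisymm e1 e4, neg_dotProduct, dotProduct_neg, neg_neg,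
      X0_dot_X0, o44, o21, o42, o41]; ring
  have o16 : e1 ⬝ᵥ e6 = 0 := by rw [dotProduct_comm]; exact o61
  have o25 : e2 ⬝ᵥ e5 = 0 := by rw [dotProduct_comm]; exact o52
  have o35 : e3 ⬝ᵥ e5 = 0 := by rw [dotProduct_comm]; exact o53
  have o36 : e3 ⬝ᵥ e6 = 0 := by rw [dotProduct_comm]; exact o63
  have o56 : e5 ⬝ᵥ e6 = 0 := by rw [dotProduct_comm]; exact o65
  -- e7 = e1 x e6 = -e2 x e5
  have m16 : X0 e1 e6 = e7 := by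
    have h1 : X0 e1 (X0 e2 e4) = -X0 e2 (X0 e1 e4) := X0_assoc o12 o14 o24
    have h2 : X0 e2 (X0 e4 e1) = -X0 e4 (X0 e2 e1) := X0_assoc o24 o21 o41
    rw [X0_antisymm e4 e1, X0_neg_right, X0_antisymm e2 e1, X0_neg_right, neg_neg, m12,
      X0_antisymm e4 e3, m34, neg_neg] at h2
    rw [m24] at h1
    rw [h1, h2]
  have m25 : X0 e2 e5 = -e7 := by
    have h1 : X0 e1 (X0 e2 e4) = -X0 e2 (X0 e1 e4) := X0_assoc o12 o14 o24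
    rw [m24, m14, m16] at h1
    rw [h1, neg_neg]
  have o71 : e7 ⬝ᵥ e1 = 0 := by rw [← m16]; exact X0_dot_left _ _
  have o76 : e7 ⬝ᵥ e6 = 0 := by rw [← m16]; exact X0_dot_right _ _
  have h7 : e7 = -X0 e2 e5 := by rw [m25, neg_neg]
  have o72 : e7 ⬝ᵥ e2 = 0 := by rw [h7, neg_dotProduct, X0_dot_left, neg_zero]
  have o75 : e7 ⬝ᵥ e5 = 0 := by rw [h7, neg_dotProduct, X0_dot_right, neg_zero]
  have o17 : e1 ⬝ᵥ e7 = 0 := by rw [dotProduct_comm]; exact o71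
  have o27 : e2 ⬝ᵥ e7 = 0 := by rw [dotProduct_comm]; exact o72
  have o37 : e3 ⬝ᵥ e7 = 0 := by rw [dotProduct_comm]; exact o73
  have o47 : e4 ⬝ᵥ e7 = 0 := by rw [dotProduct_comm]; exact o74
  have o57 : e5 ⬝ᵥ e7 = 0 := by rw [dotProduct_comm]; exact o75
  have o67 : e6 ⬝ᵥ e7 = 0 := by rw [dotProduct_comm]; exact o76
  have o15 : e1 ⬝ᵥ e5 = 0 := by rw [dotProduct_comm]; exact o51
  have o45 : e4 ⬝ᵥ e5 = 0 := by rw [dotProduct_comm]; exact o54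
  have o26 : e2 ⬝ᵥ e6 = 0 := by rw [dotProduct_comm]; exact o62
  have o46 : e4 ⬝ᵥ e6 = 0 := by rw [dotProduct_comm]; exact o64
  have m17 : X0 e1 e7 = -e6 := by rw [← m16]; exact X0_sq o11 o16
  have m67 : X0 e6 e7 = e1 := by rw [← m16]; exact X0_sq' o66 o61
  have m27 : X0 e2 e7 = e5 := by rw [h7, X0_neg_right, X0_sq o22 o25, neg_neg]
  have m57 : X0 e5 e7 = -e2 := by rw [h7, X0_neg_right, X0_sq' o55 o52]
  have m35 : X0 e3 e5 = -e6 := by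
    rw [← m14, X0_assoc o31 o34 o14, m34, X0_neg_right, neg_neg, m17]
  have m36 : X0 e3 e6 = e5 := by
    rw [← m24, X0_assoc o32 o34 o24, m34, X0_neg_right, neg_neg, m27]
  have m56 : X0 e5 e6 = -e3 := by
    have h6 : e6 = -X0 e3 e5 := by rw [m35, neg_neg]
    rw [h6, X0_neg_right, X0_sq' o55 o53]
  have s : ∀ {a b c : Fin 7 → ℝ}, X0 a b = c → X0 b a = -c := fun h => by
    rw [X0_antisymm, h]
  refine ⟨?_, ?_⟩
  · intro a b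
    fin_cases a <;> fin_cases b <;>
      simp [o11, o12, o13, o14, o15, o16, o17, o21, o22, o23, o24, o25, o26, o27, o31, o32, o33, o34, o35, o36, o37, o41, o42, o43, o44, o45, o46, o47, o51, o52, o53, o54, o55, o56, o57, o61, o62, o63, o64, o65, o66, o67, o71, o72, o73, o74, o75, o76, o77]
  · intro a b
    fin_cases a <;> fin_cases b <;>
      simp [phi0, sgn3, X0_self,
        m12, m13, m23, m14, m15, m45, m24, m26, m46, m34, m37, m47, m16, m25, m17, m67, m27, m57, m35, m36, m56,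
        s m12, s m13, s m23, s m14, s m15, s m45, s m24, s m26, s m46, s m34, s m37, s m47, s m16, s m25, s m17, s m67, s m27, s m57, s m35, s m36, s m56]

theorem frm_table {u v w : Fin 7 → ℝ} (huu : u ⬝ᵥ u = 1) (hvv : v ⬝ᵥ v = 1) (hww : w ⬝ᵥ w = 1)
    (huv : u ⬝ᵥ v = 0) (huw : u ⬝ᵥ w = 0) (hvw : v ⬝ᵥ w = 0) (hxw : X0 u v ⬝ᵥ w = 0) :
    (∀ a b, frm u v w a ⬝ᵥ frm u v w b = if a = b then 1 else 0) ∧
    ∀ a b, X0 (frm u v w a) (frm u v w b) = ∑ c, (phi0 a b c : ℝ) • frm u v w c :=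
  table_aux rfl rfl rfl rfl huu hvv hww huv huw hvw hxw

theorem frm_phi {u v w : Fin 7 → ℝ} (huu : u ⬝ᵥ u = 1) (hvv : v ⬝ᵥ v = 1) (hww : w ⬝ᵥ w = 1)
    (huv : u ⬝ᵥ v = 0) (huw : u ⬝ᵥ w = 0) (hvw : v ⬝ᵥ w = 0) (hxw : X0 u v ⬝ᵥ w = 0)
    (a b c : Fin 7) :
    X0 (frm u v w a) (frm u v w b) ⬝ᵥ frm u v w c = (phi0 a b c : ℝ) := by
  obtain ⟨h1, h2⟩ := frm_table huu hvv hww huv huw hvw hxw
  rw [h2, sum_dotProduct]
  simp [smul_dotProduct, h1]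

end Pool.Agent.AA3.LF
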