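import Pool.Agent.Lib.MP_aa3aaf_al_h46.Geom
import Pool.Agent.Lib.MP_aa3aaf_al.SmoothLem
import Pool.Agent.Lib.MP_aa3aaf_al.CD

/-!
Smooth local `G₂`-frames, explicit form.
-/

set_option autoImplicit false
open scoped BigOperators Matrix ContDiff Manifold
noncomputable section
namespace Pool.Agent.AA3

section G2
variable {M : Type} [TopologicalSpace M] [ChartedSpace (Eu 7) M] [IsManifold 𝓘(ℝ, Eu 7) ∞ M]

theorem LF.exists_local_frame (S : G2Structure M) (e : Ch M) (y : Eu 7) (hy : y ∈ tgt e.1) :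
    ∃ (V : TopologicalSpace.Opens (Eu 7)) (hV : V ≤ tgt e.1) (fr : Frame 7 (smooth V)),
      y ∈ V ∧ (∀ a i (z : V), star ((fr.e a i).1 z) = (fr.e a i).1 z) ∧
      (∀ i a (z : V), star ((fr.f i a).1 z) = (fr.f i a).1 z) ∧
      (∀ i j (z : V), (fr.g i j).1 z = (S.gR e i j).1 ⟨z.1, hV z.2⟩) ∧
      ∀ i j k (z : V), (∑ a, ∑ b, ∑ c, (((phi0 a b c : ℤ) : ℂ)) • (fr.e a i * fr.e b j * fr.e c k)
        : smooth V).1 z = (S.pR e i j k).1 ⟨z.1, hV z.2⟩ := by
  obtain ⟨V, hVo, hVU, hyV, F, hF, hfr⟩ := LF.exists_frame e.1.open_target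
    (LF.Gr_smooth S e.2) (LF.pr_smooth S e.2) (fun z hz => LF.exists_adap S e.2 hz) hy
  let W : TopologicalSpace.Opens (Eu 7) := ⟨V, hVo⟩
  -- the coframe
  let er : Fin 7 → Fin 7 → Eu 7 → ℝ := fun a i z => ∑ j, F z a j * LF.Gr S e.1 z j i
  have her : ∀ a i, ContDiffOn ℝ ∞ (er a i) V := fun a i =>
    ContDiffOn.sum fun j _ => (hF a j).mul ((LF.Gr_smooth S e.2 j i).mono hVU)
  have hc : ∀ g : Eu 7 → ℝ, ContDiffOn ℝ ∞ g V →
      ContDiffOn ℝ ∞ (fun z => ((g z : ℝ) : ℂ)) (W : Set (Eu 7)) := fun g hg =>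
    Complex.ofRealCLM.contDiff.comp_contDiffOn hg
  let em : Matrix (Fin 7) (Fin 7) (smooth W) := fun a i => SM.mk' _ (hc _ (her a i))
  let fm : Matrix (Fin 7) (Fin 7) (smooth W) := fun i a =>
    SM.mk' (fun z => ((F z a i : ℝ) : ℂ)) (hc _ (hF a i))
  have hem : ∀ a i (z : W), (em a i).1 z = ((er a i z : ℝ) : ℂ) := fun a i z => rfl
  have hfm : ∀ i a (z : W), (fm i a).1 z = ((F z a i : ℝ) : ℂ) := fun i a z => rfl
  -- evaluation
  let ev : W → (smooth W →ₐ[ℂ] ℂ) := fun z =>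
    (Pi.evalAlgHom ℂ (fun _ : W => ℂ) z).comp (smooth W).val
  have hev : ∀ (z : W) (f : smooth W), f.1 z = ev z f := fun z f => rfl
  have h1 : em * fm = 1 := by
    refine Matrix.ext fun a b => SM.ext_apply fun z => ?_
    rw [hev, hev, Matrix.mul_apply, map_sum]
    have h : ∑ i, er a i z * F z b i = (1 : Matrix (Fin 7) (Fin 7) ℝ) a b :=
      congrFun (congrFun (hfr z z.2).1 a) b
    have h' := congrArg (fun x : ℝ => (x : ℂ)) h
    simp only [Complex.ofReal_sum, Complex.ofReal_mul] at h'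
    refine Eq.trans (Finset.sum_congr rfl fun i _ => ?_) (h'.trans ?_)
    · rw [map_mul]; rfl
    · rw [Matrix.one_apply, Matrix.one_apply]
      split_ifs <;> simp
  have h2 : fm * em = 1 := mul_eq_one_comm.1 h1
  refine ⟨W, hVU, ⟨em, fm, h1, h2⟩, hyV, ?_, ?_, ?_, ?_⟩
  · intro a i z
    show star ((em a i).1 z) = (em a i).1 z
    rw [hem]; exact Complex.conj_ofReal _
  · intro i a z
    show star ((fm i a).1 z) = (fm i a).1 z
    rw [hfm]; exact Complex.conj_ofReal _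
  · intro i j z
    show ((em.transpose * em) i j).1 z = _
    rw [hev, Matrix.mul_apply, map_sum]
    have h : ∑ a, er a i z * er a j z = LF.Gr S e.1 z i j :=
      congrFun (congrFun (hfr z z.2).2.2.1 i) j
    have h' := congrArg (fun x : ℝ => (x : ℂ)) h
    simp only [Complex.ofReal_sum, Complex.ofReal_mul] at h'
    refine Eq.trans (Finset.sum_congr rfl fun a _ => ?_) (h'.trans rfl)
    rw [map_mul]; rfl
  · intro i j k z
    rw [hev]
    have h : ∑ a, ∑ b, ∑ c, ((phi0 a b c : ℤ) : ℝ) * (er a i z * er b j z * er c k z)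
        = LF.pr S e.1 z i j k := (hfr z z.2).2.2.2 i j k
    have h' := congrArg (fun x : ℝ => (x : ℂ)) h
    simp only [Complex.ofReal_sum, Complex.ofReal_mul] at h'
    simp only [map_sum, map_smul, map_mul, smul_eq_mul]
    refine Eq.trans (Finset.sum_congr rfl fun a _ => Finset.sum_congr rfl fun b _ =>
      Finset.sum_congr rfl fun c _ => ?_) (h'.trans rfl)
    have h3 : ((phi0 a b c : ℤ) : ℂ) = (((phi0 a b c : ℤ) : ℝ) : ℂ) := by
      push_cast; rfl
    rw [h3]; rfl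

end G2
end Pool.Agent.AA3
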