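import Pool.Agent.Lib.MP_aa3aaf_al_h46.Cross

/-!
Adapted frames from three vectors for an arbitrary metric and 3-form on `ℝ⁷` that are standard in
some basis (pointwise algebra).
-/

set_option autoImplicit false
open scoped BigOperators Matrix
noncomputable section
namespace Pool.Agent.AA3.LF

lemma X0_add_left (u v w : Fin 7 → ℝ) : X0 (u + v) w = X0 u w + X0 v w := by
  funext k
  fin_cases k <;> simp [X0] <;> ring

lemma X0_add_right (u v w : Fin 7 → ℝ) : X0 u (v + w) = X0 u v + X0 u w := by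
  funext k
  fin_cases k <;> simp [X0] <;> ring

/-- the cross product as a bilinear map -/
def X0L : (Fin 7 → ℝ) →ₗ[ℝ] (Fin 7 → ℝ) →ₗ[ℝ] (Fin 7 → ℝ) :=
  LinearMap.mk₂ ℝ X0 X0_add_left X0_smul_left X0_add_right X0_smul_right

lemma X0_sum {ι κ : Type*} (s : Finset ι) (t : Finset κ) (c : ι → ℝ) (d : κ → ℝ)
    (u : ι → (Fin 7 → ℝ)) (v : κ → (Fin 7 → ℝ)) :
    X0 (∑ i ∈ s, c i • u i) (∑ j ∈ t, d j • v j)
      = ∑ i ∈ s, ∑ j ∈ t, (c i * d j) • X0 (u i) (v j) := by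
  show X0L (∑ i ∈ s, c i • u i) (∑ j ∈ t, d j • v j) = _
  rw [LinearMap.map_sum₂]
  refine Finset.sum_congr rfl fun i _ => ?_
  rw [map_sum]
  refine Finset.sum_congr rfl fun j _ => ?_
  simp only [map_smul, LinearMap.smul_apply, smul_smul, mul_comm (d j)]
  rfl

/-- the bilinear form of a matrix -/
def gB (G : Matrix (Fin 7) (Fin 7) ℝ) (u v : Fin 7 → ℝ) : ℝ := ∑ i, ∑ j, u i * G i j * v j

/-- the cross product of a metric and a 3-form -/
def XG (G : Matrix (Fin 7) (Fin 7) ℝ) (p : Fin 7 → Fin 7 → Fin 7 → ℝ) (u v : Fin 7 → ℝ) :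
    Fin 7 → ℝ := fun k => ∑ l, G⁻¹ k l * ∑ i, ∑ j, p i j l * u i * v j

/-- the frame generated by three vectors -/
def frmG (G : Matrix (Fin 7) (Fin 7) ℝ) (p : Fin 7 → Fin 7 → Fin 7 → ℝ) (u v w : Fin 7 → ℝ) :
    Fin 7 → (Fin 7 → ℝ) :=
  ![u, v, XG G p u v, w, XG G p u w, XG G p v w, -XG G p (XG G p u v) w]

/-- `(G, p)` is standard in the basis given by the inverse of `Q` -/
structure Adap (G : Matrix (Fin 7) (Fin 7) ℝ) (p : Fin 7 → Fin 7 → Fin 7 → ℝ)
    (Q : Matrix (Fin 7) (Fin 7) ℝ) : Prop where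
  unit : IsUnit Q.det
  g : G = Qᵀ * Q
  p : ∀ i j k, p i j k = ∑ a, ∑ b, ∑ c, (phi0 a b c : ℝ) * Q a i * Q b j * Q c k

namespace Adap
variable {G : Matrix (Fin 7) (Fin 7) ℝ} {p : Fin 7 → Fin 7 → Fin 7 → ℝ}
  {Q : Matrix (Fin 7) (Fin 7) ℝ} (h : Adap G p Q)
include h

lemma gB_eq (u v : Fin 7 → ℝ) : gB G u v = (Q *ᵥ u) ⬝ᵥ (Q *ᵥ v) := by
  have : gB G u v = u ⬝ᵥ (G *ᵥ v) := by
    simp only [gB, dotProduct, Matrix.mulVec, Finset.mul_sum, mul_assoc]
  rw [this, h.g, ← Matrix.mulVec_mulVec, Matrix.dotProduct_mulVec, Matrix.vecMul_transpose]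

lemma symm : Gᵀ = G := by rw [h.g]; simp

lemma p_eq (u v w : Fin 7 → ℝ) :
    ∑ i, ∑ j, ∑ k, p i j k * u i * v j * w k = X0 (Q *ᵥ u) (Q *ᵥ v) ⬝ᵥ (Q *ᵥ w) := by
  have e1 : ∀ x : Fin 7 → ℝ, Q *ᵥ x = ∑ i, x i • Q.col i := by
    intro x
    rw [Matrix.mulVec_eq_sum]
    simp [Matrix.col_def]
  have e2 : ∀ i j k, X0 (Q.col i) (Q.col j) ⬝ᵥ Q.col k = p i j k := by
    intro i j k
    rw [h.p]
    simp only [dotProduct, X0_apply, Matrix.col_apply, Finset.sum_mul]
    rw [Finset.sum_comm]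
    refine Finset.sum_congr rfl fun a _ => ?_
    rw [Finset.sum_comm]
  rw [e1 u, e1 v, X0_sum, sum_dotProduct]
  refine Finset.sum_congr rfl fun i _ => ?_
  rw [sum_dotProduct]
  refine Finset.sum_congr rfl fun j _ => ?_
  rw [e1 w, dotProduct_sum]
  refine Finset.sum_congr rfl fun k _ => ?_
  rw [smul_dotProduct, dotProduct_smul, e2]
  simp only [smul_eq_mul]
  ring

lemma XG_eq (u v : Fin 7 → ℝ) : Q *ᵥ XG G p u v = X0 (Q *ᵥ u) (Q *ᵥ v) := by
  have hG : IsUnit G.det := by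
    rw [h.g, Matrix.det_mul, Matrix.det_transpose]; exact h.unit.mul h.unit
  have e1 : XG G p u v = G⁻¹ *ᵥ (fun l => ∑ i, ∑ j, p i j l * u i * v j) := rfl
  have e2 : (fun l => ∑ i, ∑ j, p i j l * u i * v j) = Qᵀ *ᵥ X0 (Q *ᵥ u) (Q *ᵥ v) := by
    funext l
    have := h.p_eq u v (Pi.single l 1)
    simp only [Pi.single_apply, mul_ite, mul_one, mul_zero, Finset.sum_ite_eq',
      Finset.mem_univ, if_true, Matrix.mulVec_single_one] at this
    rw [this, Matrix.mulVec, dotProduct_comm]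
    rfl
  have e3 : Q * G⁻¹ * Qᵀ = 1 := by
    have hQ : IsUnit Q.det := h.unit
    have hQt : IsUnit Qᵀ.det := by rw [Matrix.det_transpose]; exact hQ
    rw [h.g, Matrix.mul_inv_rev, Matrix.mul_assoc, Matrix.mul_assoc, Matrix.nonsing_inv_mul _ hQt,
      Matrix.mul_one, Matrix.mul_nonsing_inv _ hQ]
  rw [e1, e2, Matrix.mulVec_mulVec, Matrix.mulVec_mulVec, e3, Matrix.one_mulVec]

lemma frmG_eq (u v w : Fin 7 → ℝ) (a : Fin 7) :
    Q *ᵥ frmG G p u v w a = frm (Q *ᵥ u) (Q *ᵥ v) (Q *ᵥ w) a := by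
  fin_cases a <;> simp [frmG, frm, h.XG_eq, Matrix.mulVec_neg]

lemma pos {w : Fin 7 → ℝ} (hw : w ≠ 0) : 0 < gB G w w := by
  rw [h.gB_eq]
  have h1 : Q *ᵥ w ≠ 0 := by
    intro h0
    apply hw
    have := congrArg (fun x => Q⁻¹ *ᵥ x) h0
    simpa [Matrix.mulVec_mulVec, Matrix.nonsing_inv_mul _ h.unit] using this
  have h2 : 0 ≤ (Q *ᵥ w) ⬝ᵥ (Q *ᵥ w) := Finset.sum_nonneg fun i _ => mul_self_nonneg _
  rcases h2.lt_or_eq with h3 | h3
  · exact h3
  · exact absurd (dotProduct_self_eq_zero.1 h3.symm) h1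

section
variable {u v w : Fin 7 → ℝ} (huu : gB G u u = 1) (hvv : gB G v v = 1) (hww : gB G w w = 1)
  (huv : gB G u v = 0) (huw : gB G u w = 0) (hvw : gB G v w = 0)
  (hxw : gB G (XG G p u v) w = 0)
include huu hvv hww huv huw hvw hxw

/-- the frame matrices -/
theorem frame :
    let f : Matrix (Fin 7) (Fin 7) ℝ := fun i a => frmG G p u v w a i
    let e : Matrix (Fin 7) (Fin 7) ℝ := fun a i => ∑ j, frmG G p u v w a j * G j i
    e * f = 1 ∧ f * e = 1 ∧ eᵀ * e = G ∧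
      ∀ i j k, ∑ a, ∑ b, ∑ c, (phi0 a b c : ℝ) * (e a i * e b j * e c k) = p i j k := by
  intro f e
  rw [h.gB_eq] at huu hvv hww huv huw hvw hxw
  rw [h.XG_eq] at hxw
  have ho := (frm_table huu hvv hww huv huw hvw hxw).1
  have hp := frm_phi huu hvv hww huv huw hvw hxw
  have hef : e * f = 1 := by
    ext a b
    have h1 : (e * f) a b = gB G (frmG G p u v w a) (frmG G p u v w b) := by
      rw [Matrix.mul_apply, gB, Finset.sum_comm]
      refine Finset.sum_congr rfl fun i _ => ?_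
      show (∑ j, frmG G p u v w a j * G j i) * frmG G p u v w b i = _
      rw [Finset.sum_mul]
    rw [h1, h.gB_eq, h.frmG_eq, h.frmG_eq, ho, Matrix.one_apply]
  have hfe : f * e = 1 := mul_eq_one_comm.1 hef
  have he : e = fᵀ * G := by
    ext a i
    rfl
  refine ⟨hef, hfe, ?_, ?_⟩
  · calc eᵀ * e = (fᵀ * G)ᵀ * (fᵀ * G) := by rw [he]
      _ = G * f * (fᵀ * G) := by rw [Matrix.transpose_mul, Matrix.transpose_transpose, h.symm]
      _ = G * (f * e) := by rw [he]; simp only [Matrix.mul_assoc]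
      _ = G := by rw [hfe, Matrix.mul_one]
  · intro i j k
    have hQ : ∀ i, Q.col i = ∑ a, e a i • frm (Q *ᵥ u) (Q *ᵥ v) (Q *ᵥ w) a := by
      intro i
      have h1 : Q.col i = Q *ᵥ (∑ a, e a i • frmG G p u v w a) := by
        have h2 : (∑ a, e a i • frmG G p u v w a) = Pi.single i 1 := by
          funext j
          have := congrFun (congrFun hfe j) i
          rw [Matrix.mul_apply] at this
          simp only [Finset.sum_apply, Pi.smul_apply, smul_eq_mul]
          rw [show (∑ c, e c i * frmG G p u v w c j) = ∑ c, f j c * e c i from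
            Finset.sum_congr rfl fun c _ => mul_comm _ _, this, Matrix.one_apply, Pi.single_apply]
        rw [h2, Matrix.mulVec_single_one]
      rw [h1, Matrix.mulVec_sum]
      refine Finset.sum_congr rfl fun a _ => ?_
      rw [Matrix.mulVec_smul, h.frmG_eq]
    have h3 : p i j k = X0 (Q.col i) (Q.col j) ⬝ᵥ Q.col k := by
      have := h.p_eq (Pi.single i 1) (Pi.single j 1) (Pi.single k 1)
      simp only [Pi.single_apply, mul_ite, mul_one, mul_zero, Finset.sum_ite_eq',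
        Finset.mem_univ, if_true, Matrix.mulVec_single_one] at this
      exact this
    rw [h3, hQ i, hQ j, X0_sum, sum_dotProduct]
    refine Finset.sum_congr rfl fun a _ => ?_
    rw [sum_dotProduct]
    refine Finset.sum_congr rfl fun b _ => ?_
    rw [hQ k, dotProduct_sum]
    refine Finset.sum_congr rfl fun c _ => ?_
    rw [smul_dotProduct, dotProduct_smul, hp]
    simp only [smul_eq_mul]
    ring
end

end Adap
end Pool.Agent.AA3.LF
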