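import Pool.Agent.Lib.MP_aa3aaf_al_h46.Point

/-!
Smooth adapted frames for a smooth metric and a smooth 3-form on an open subset of `ℝ⁷` that are
pointwise standard.
-/

set_option autoImplicit false
set_option linter.unusedSectionVars false
open scoped BigOperators Matrix ContDiff
noncomputable section
namespace Pool.Agent.AA3.LF

section
variable {E : Type*} [NormedAddCommGroup E] [NormedSpace ℝ E] {V : Set E}

lemma cd_gB {G : E → Matrix (Fin 7) (Fin 7) ℝ} {u v : E → (Fin 7 → ℝ)}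
    (hG : ∀ i j, ContDiffOn ℝ ∞ (fun z => G z i j) V)
    (hu : ∀ i, ContDiffOn ℝ ∞ (fun z => u z i) V) (hv : ∀ i, ContDiffOn ℝ ∞ (fun z => v z i) V) :
    ContDiffOn ℝ ∞ (fun z => gB (G z) (u z) (v z)) V := by
  unfold gB
  exact ContDiffOn.sum fun i _ => ContDiffOn.sum fun j _ => ((hu i).mul (hG i j)).mul (hv j)

lemma cd_det {G : E → Matrix (Fin 7) (Fin 7) ℝ}
    (hG : ∀ i j, ContDiffOn ℝ ∞ (fun z => G z i j) V) :
    ContDiffOn ℝ ∞ (fun z => (G z).det) V := by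
  simp only [Matrix.det_apply']
  refine ContDiffOn.sum fun σ _ => contDiffOn_const.mul ?_
  exact contDiffOn_prod fun i _ => hG (σ i) i

lemma cd_inv {G : E → Matrix (Fin 7) (Fin 7) ℝ}
    (hG : ∀ i j, ContDiffOn ℝ ∞ (fun z => G z i j) V) (hd : ∀ z ∈ V, (G z).det ≠ 0)
    (i j : Fin 7) : ContDiffOn ℝ ∞ (fun z => (G z)⁻¹ i j) V := by
  have h1 : ∀ z, (G z)⁻¹ i j = (G z).det⁻¹ * ((G z).updateRow j (Pi.single i 1)).det := by
    intro z
    rw [Matrix.inv_def, Matrix.smul_apply, Matrix.adjugate_apply, Ring.inverse_eq_inv',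
      smul_eq_mul]
  simp only [h1]
  refine ((cd_det hG).inv hd).mul (cd_det fun a b => ?_)
  by_cases h : a = j
  · subst h
    simp only [Matrix.updateRow_self]
    exact contDiffOn_const
  · simp only [Matrix.updateRow_ne h]
    exact hG a b

lemma cd_XG {G : E → Matrix (Fin 7) (Fin 7) ℝ} {p : E → Fin 7 → Fin 7 → Fin 7 → ℝ}
    {u v : E → (Fin 7 → ℝ)}
    (hG : ∀ i j, ContDiffOn ℝ ∞ (fun z => G z i j) V) (hd : ∀ z ∈ V, (G z).det ≠ 0)
    (hp : ∀ i j k, ContDiffOn ℝ ∞ (fun z => p z i j k) V)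
    (hu : ∀ i, ContDiffOn ℝ ∞ (fun z => u z i) V) (hv : ∀ i, ContDiffOn ℝ ∞ (fun z => v z i) V)
    (k : Fin 7) : ContDiffOn ℝ ∞ (fun z => XG (G z) (p z) (u z) (v z) k) V := by
  unfold XG
  exact ContDiffOn.sum fun l _ => (cd_inv hG hd k l).mul
    (ContDiffOn.sum fun i _ => ContDiffOn.sum fun j _ => ((hp i j l).mul (hu i)).mul (hv j))

/-- normalisation -/
def nrm (G : Matrix (Fin 7) (Fin 7) ℝ) (w : Fin 7 → ℝ) : Fin 7 → ℝ :=
  (Real.sqrt (gB G w w))⁻¹ • w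

lemma cd_nrm {G : E → Matrix (Fin 7) (Fin 7) ℝ} {w : E → (Fin 7 → ℝ)}
    (hG : ∀ i j, ContDiffOn ℝ ∞ (fun z => G z i j) V)
    (hw : ∀ i, ContDiffOn ℝ ∞ (fun z => w z i) V) (hpos : ∀ z ∈ V, 0 < gB (G z) (w z) (w z))
    (i : Fin 7) : ContDiffOn ℝ ∞ (fun z => nrm (G z) (w z) i) V := by
  unfold nrm
  simp only [Pi.smul_apply, smul_eq_mul]
  refine (((cd_gB hG hw hw).sqrt fun z hz => (hpos z hz).ne').inv fun z hz => ?_).mul (hw i)
  exact (Real.sqrt_pos.2 (hpos z hz)).ne'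

end

section
variable (G : Matrix (Fin 7) (Fin 7) ℝ)

lemma gB_smul_left (c : ℝ) (u v : Fin 7 → ℝ) : gB G (c • u) v = c * gB G u v := by
  simp only [gB, Finset.mul_sum, Pi.smul_apply, smul_eq_mul]
  exact Finset.sum_congr rfl fun i _ => Finset.sum_congr rfl fun j _ => by ring

lemma gB_smul_right (c : ℝ) (u v : Fin 7 → ℝ) : gB G u (c • v) = c * gB G u v := by
  simp only [gB, Finset.mul_sum, Pi.smul_apply, smul_eq_mul]
  exact Finset.sum_congr rfl fun i _ => Finset.sum_congr rfl fun j _ => by ring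

lemma gB_sub_left (u v w : Fin 7 → ℝ) : gB G (u - v) w = gB G u w - gB G v w := by
  simp only [gB, ← Finset.sum_sub_distrib, Pi.sub_apply]
  exact Finset.sum_congr rfl fun i _ => Finset.sum_congr rfl fun j _ => by ring

lemma gB_nrm {w : Fin 7 → ℝ} (h : 0 < gB G w w) : gB G (nrm G w) (nrm G w) = 1 := by
  rw [nrm, gB_smul_left, gB_smul_right, ← mul_assoc]
  have h1 := Real.mul_self_sqrt h.le
  have h2 := (Real.sqrt_pos.2 h).ne'
  field_simp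
  rw [sq, h1]

end

variable (G : Matrix (Fin 7) (Fin 7) ℝ) (p : Fin 7 → Fin 7 → Fin 7 → ℝ)
  (b1 b2 b4 : Fin 7 → ℝ)

def v1 : Fin 7 → ℝ := nrm G b1
def w2 : Fin 7 → ℝ := b2 - gB G b2 (v1 G b1) • v1 G b1
def v2 : Fin 7 → ℝ := nrm G (w2 G b1 b2)
def v3 : Fin 7 → ℝ := XG G p (v1 G b1) (v2 G b1 b2)
def w4 : Fin 7 → ℝ := b4 - gB G b4 (v1 G b1) • v1 G b1 - gB G b4 (v2 G b1 b2) • v2 G b1 b2
  - gB G b4 (v3 G p b1 b2) • v3 G p b1 b2
def v4 : Fin 7 → ℝ := nrm G (w4 G p b1 b2 b4)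

variable {G p b1 b2 b4}

section
variable {Q : Matrix (Fin 7) (Fin 7) ℝ} (h : Adap G p Q)
include h

lemma Adap.gB_comm (u v : Fin 7 → ℝ) : gB G u v = gB G v u := by
  rw [h.gB_eq, h.gB_eq, dotProduct_comm]

variable (hb : LinearIndependent ℝ ![b1, b2])
include hb

lemma b1_ne : b1 ≠ 0 := by
  have := hb.ne_zero 0
  simpa using this

lemma pos1 : 0 < gB G b1 b1 := h.pos (b1_ne h hb)

lemma pos2 : 0 < gB G (w2 G b1 b2) (w2 G b1 b2) := by
  apply h.pos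
  intro h0
  have h1 : b2 = (gB G b2 (v1 G b1) * (Real.sqrt (gB G b1 b1))⁻¹) • b1 := by
    have h2 := sub_eq_zero.1 h0
    have h3 : gB G b2 (v1 G b1) • v1 G b1
        = (gB G b2 (v1 G b1) * (Real.sqrt (gB G b1 b1))⁻¹) • b1 := by
      rw [← smul_smul]; rfl
    exact h2.trans h3
  have h3 := LinearIndependent.pair_iff.1 hb
    (gB G b2 (v1 G b1) * (Real.sqrt (gB G b1 b1))⁻¹) (-1) (by
      rw [← h1]; simp)
  exact absurd h3.2 (by norm_num)

lemma o11 : gB G (v1 G b1) (v1 G b1) = 1 := gB_nrm G (pos1 h hb)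
lemma o22 : gB G (v2 G b1 b2) (v2 G b1 b2) = 1 := gB_nrm G (pos2 h hb)

lemma o12 : gB G (v1 G b1) (v2 G b1 b2) = 0 := by
  have h1 : gB G (w2 G b1 b2) (v1 G b1) = 0 := by
    rw [w2, gB_sub_left, gB_smul_left, o11 h hb]
    ring
  rw [h.gB_comm, v2, nrm, gB_smul_left, h1, mul_zero]

lemma o33 : gB G (v3 G p b1 b2) (v3 G p b1 b2) = 1 := by
  rw [h.gB_eq, v3, h.XG_eq, X0_dot_X0, ← h.gB_eq, ← h.gB_eq, ← h.gB_eq, o11 h hb, o22 h hb,
    o12 h hb]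
  ring

lemma o13 : gB G (v1 G b1) (v3 G p b1 b2) = 0 := by
  rw [h.gB_comm, h.gB_eq, v3, h.XG_eq, X0_dot_left]

lemma o23 : gB G (v2 G b1 b2) (v3 G p b1 b2) = 0 := by
  rw [h.gB_comm, h.gB_eq, v3, h.XG_eq, X0_dot_right]

lemma o41 : gB G (w4 G p b1 b2 b4) (v1 G b1) = 0 := by
  rw [w4, gB_sub_left, gB_sub_left, gB_sub_left, gB_smul_left, gB_smul_left, gB_smul_left,
    o11 h hb, h.gB_comm (v2 G b1 b2) (v1 G b1), o12 h hb, h.gB_comm (v3 G p b1 b2) (v1 G b1),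
    o13 h hb]
  ring

lemma o42 : gB G (w4 G p b1 b2 b4) (v2 G b1 b2) = 0 := by
  rw [w4, gB_sub_left, gB_sub_left, gB_sub_left, gB_smul_left, gB_smul_left, gB_smul_left,
    o12 h hb, o22 h hb, h.gB_comm (v3 G p b1 b2) (v2 G b1 b2), o23 h hb]
  ring

lemma o43 : gB G (w4 G p b1 b2 b4) (v3 G p b1 b2) = 0 := by
  rw [w4, gB_sub_left, gB_sub_left, gB_sub_left, gB_smul_left, gB_smul_left, gB_smul_left,
    o13 h hb, o23 h hb, o33 h hb]
  ring

/-- the frame generated by `v1, v2, v4` is adapted -/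
theorem adapted_frame (h4 : 0 < gB G (w4 G p b1 b2 b4) (w4 G p b1 b2 b4)) :
    let f : Matrix (Fin 7) (Fin 7) ℝ :=
      fun i a => frmG G p (v1 G b1) (v2 G b1 b2) (v4 G p b1 b2 b4) a i
    let e : Matrix (Fin 7) (Fin 7) ℝ :=
      fun a i => ∑ j, frmG G p (v1 G b1) (v2 G b1 b2) (v4 G p b1 b2 b4) a j * G j i
    e * f = 1 ∧ f * e = 1 ∧ eᵀ * e = G ∧
      ∀ i j k, ∑ a, ∑ b, ∑ c, (phi0 a b c : ℝ) * (e a i * e b j * e c k) = p i j k := by
  refine h.frame (o11 h hb) (o22 h hb) (gB_nrm G h4) (o12 h hb) ?_ ?_ ?_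
  · rw [h.gB_comm, v4, nrm, gB_smul_left, o41 h hb, mul_zero]
  · rw [h.gB_comm, v4, nrm, gB_smul_left, o42 h hb, mul_zero]
  · rw [h.gB_comm, v4, nrm, gB_smul_left]
    have := o43 (b4 := b4) h hb
    rw [v3] at this
    rw [this, mul_zero]

end

/-- the smooth frame near a point -/
theorem exists_frame {U : Set (Eu 7)} (hU : IsOpen U) {G : Eu 7 → Matrix (Fin 7) (Fin 7) ℝ}
    {p : Eu 7 → Fin 7 → Fin 7 → Fin 7 → ℝ}
    (hG : ∀ i j, ContDiffOn ℝ ∞ (fun z => G z i j) U)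
    (hp : ∀ i j k, ContDiffOn ℝ ∞ (fun z => p z i j k) U)
    (hA : ∀ z ∈ U, ∃ Q, Adap (G z) (p z) Q) {y : Eu 7} (hy : y ∈ U) :
    ∃ V : Set (Eu 7), IsOpen V ∧ V ⊆ U ∧ y ∈ V ∧ ∃ F : Eu 7 → Fin 7 → (Fin 7 → ℝ),
      (∀ a i, ContDiffOn ℝ ∞ (fun z => F z a i) V) ∧ ∀ z ∈ V,
      let f : Matrix (Fin 7) (Fin 7) ℝ := fun i a => F z a i
      let e : Matrix (Fin 7) (Fin 7) ℝ := fun a i => ∑ j, F z a j * G z j i
      e * f = 1 ∧ f * e = 1 ∧ eᵀ * e = G z ∧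
        ∀ i j k, ∑ a, ∑ b, ∑ c, (phi0 a b c : ℝ) * (e a i * e b j * e c k) = p z i j k := by
  obtain ⟨Q, hQ⟩ := hA y hy
  obtain ⟨P, hP⟩ : ∃ P, P = Q⁻¹ := ⟨_, rfl⟩
  have hQP : Q * P = 1 := by rw [hP]; exact Matrix.mul_nonsing_inv _ hQ.unit
  have hc : ∀ a, Q *ᵥ P.col a = Pi.single a 1 := by
    intro a
    rw [← Matrix.mulVec_single_one P a, Matrix.mulVec_mulVec, hQP, Matrix.one_mulVec]
  have hb : LinearIndependent ℝ ![P.col 0, P.col 1] := by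
    rw [LinearIndependent.pair_iff]
    intro s t hst
    have h1 := congrArg (fun x => Q *ᵥ x) hst
    simp only [Matrix.mulVec_add, Matrix.mulVec_smul, hc, Matrix.mulVec_zero] at h1
    have h2 := congrFun h1 0
    have h3 := congrFun h1 1
    simp at h2 h3
    exact ⟨h2, h3⟩
  have hd : ∀ z ∈ U, (G z).det ≠ 0 := by
    intro z hz
    obtain ⟨R, hR⟩ := hA z hz
    rw [hR.g, Matrix.det_mul, Matrix.det_transpose]
    exact (hR.unit.mul hR.unit).ne_zero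
  have hb1 : ∀ i, ContDiffOn ℝ ∞ (fun _ : Eu 7 => P.col 0 i) U := fun i => contDiffOn_const
  have hb2 : ∀ i, ContDiffOn ℝ ∞ (fun _ : Eu 7 => P.col 1 i) U := fun i => contDiffOn_const
  have hb4 : ∀ i, ContDiffOn ℝ ∞ (fun _ : Eu 7 => P.col 3 i) U := fun i => contDiffOn_const
  have c1 : ∀ i, ContDiffOn ℝ ∞ (fun z => v1 (G z) (P.col 0) i) U := by
    refine cd_nrm hG hb1 fun z hz => ?_
    obtain ⟨R, hR⟩ := hA z hz
    exact pos1 hR hb
  have c2' : ∀ i, ContDiffOn ℝ ∞ (fun z => w2 (G z) (P.col 0) (P.col 1) i) U := by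
    intro i
    simp only [w2, Pi.sub_apply, Pi.smul_apply, smul_eq_mul]
    exact (hb2 i).sub ((cd_gB hG hb2 c1).mul (c1 i))
  have c2 : ∀ i, ContDiffOn ℝ ∞ (fun z => v2 (G z) (P.col 0) (P.col 1) i) U := by
    refine cd_nrm hG c2' fun z hz => ?_
    obtain ⟨R, hR⟩ := hA z hz
    exact pos2 hR hb
  have c3 : ∀ i, ContDiffOn ℝ ∞ (fun z => v3 (G z) (p z) (P.col 0) (P.col 1) i) U :=
    cd_XG hG hd hp c1 c2
  have c4' : ∀ i, ContDiffOn ℝ ∞
      (fun z => w4 (G z) (p z) (P.col 0) (P.col 1) (P.col 3) i) U := by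
    intro i
    simp only [w4, Pi.sub_apply, Pi.smul_apply, smul_eq_mul]
    exact (((hb4 i).sub ((cd_gB hG hb4 c1).mul (c1 i))).sub
      ((cd_gB hG hb4 c2).mul (c2 i))).sub ((cd_gB hG hb4 c3).mul (c3 i))
  have cn : ContDiffOn ℝ ∞ (fun z => gB (G z) (w4 (G z) (p z) (P.col 0) (P.col 1) (P.col 3))
      (w4 (G z) (p z) (P.col 0) (P.col 1) (P.col 3))) U := cd_gB hG c4' c4'
  obtain ⟨V, hV⟩ : ∃ V, V = U ∩ (fun z => gB (G z)
      (w4 (G z) (p z) (P.col 0) (P.col 1) (P.col 3))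
      (w4 (G z) (p z) (P.col 0) (P.col 1) (P.col 3))) ⁻¹' Set.Ioi 0 := ⟨_, rfl⟩
  have hVU : V ⊆ U := by rw [hV]; exact Set.inter_subset_left
  have hyV : y ∈ V := by
    rw [hV]
    refine ⟨hy, ?_⟩
    have g11 : gB (G y) (P.col 0) (P.col 0) = 1 := by
      rw [hQ.gB_eq, hc]; simp
    have e1 : v1 (G y) (P.col 0) = P.col 0 := by
      rw [v1, nrm, g11]; simp
    have e2' : w2 (G y) (P.col 0) (P.col 1) = P.col 1 := by
      rw [w2, e1, hQ.gB_eq, hc, hc]; simp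
    have e2 : v2 (G y) (P.col 0) (P.col 1) = P.col 1 := by
      rw [v2, e2', nrm, hQ.gB_eq, hc]; simp
    have e3 : Q *ᵥ v3 (G y) (p y) (P.col 0) (P.col 1) = Pi.single 2 1 := by
      rw [v3, e1, e2, hQ.XG_eq, hc, hc]
      funext k
      fin_cases k <;> simp [X0]
    have e4 : w4 (G y) (p y) (P.col 0) (P.col 1) (P.col 3) = P.col 3 := by
      rw [w4, e1, e2, hQ.gB_eq, hQ.gB_eq, hQ.gB_eq, hc, hc, hc, e3]
      simp
    show 0 < gB (G y) (w4 (G y) (p y) (P.col 0) (P.col 1) (P.col 3))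
      (w4 (G y) (p y) (P.col 0) (P.col 1) (P.col 3))
    rw [e4, hQ.gB_eq, hc]
    simp
  refine ⟨V, ?_, hVU, hyV, fun z => frmG (G z) (p z) (v1 (G z) (P.col 0))
    (v2 (G z) (P.col 0) (P.col 1)) (v4 (G z) (p z) (P.col 0) (P.col 1) (P.col 3)), ?_, ?_⟩
  · rw [hV]
    exact cn.continuousOn.isOpen_inter_preimage hU isOpen_Ioi
  · have hG' : ∀ i j, ContDiffOn ℝ ∞ (fun z => G z i j) V := fun i j => (hG i j).mono hVU
    have hp' : ∀ i j k, ContDiffOn ℝ ∞ (fun z => p z i j k) V := fun i j k => (hp i j k).mono hVU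
    have hd' : ∀ z ∈ V, (G z).det ≠ 0 := fun z hz => hd z (hVU hz)
    have c1' := fun i => (c1 i).mono hVU
    have c2'' := fun i => (c2 i).mono hVU
    have c3' := fun i => (c3 i).mono hVU
    have c4 : ∀ i, ContDiffOn ℝ ∞
        (fun z => v4 (G z) (p z) (P.col 0) (P.col 1) (P.col 3) i) V := by
      refine cd_nrm hG' (fun i => (c4' i).mono hVU) fun z hz => ?_
      rw [hV] at hz
      exact hz.2
    intro a i
    fin_cases a
    · exact c1' i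
    · exact c2'' i
    · exact c3' i
    · exact c4 i
    · exact cd_XG hG' hd' hp' c1' c4 i
    · exact cd_XG hG' hd' hp' c2'' c4 i
    · exact (cd_XG hG' hd' hp' c3' c4 i).neg
  · intro z hz
    obtain ⟨R, hR⟩ := hA z (hVU hz)
    rw [hV] at hz
    exact adapted_frame hR hb hz.2

end Pool.Agent.AA3.LF
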